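import Pool.Agent.H79.BR.Targets

/-! Module CTE: weighted energy at fixed last frequency. -/

set_option autoImplicit false

namespace Pool.Agent.H79.BR

open MeasureTheory Set FourierTransform
open Pool.Agent.H83.LS Pool.Agent.H93.AR Pool.Agent.H54.LS Pool.Agent.H14.LS Pool.Agent.H83.AR
open scoped ENNReal NNReal

theorem gw_int (n : ℕ) {δ : ℝ} (hδ : 0 < δ) : Integrable fun q : ℝ × EE n =>
    Real.exp (-(Real.pi * q.1 ^ 2)) * Real.exp (-(Real.pi * (‖q.2‖ ^ 2 / δ ^ 2))) := by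
  have hp := Real.pi_pos
  have h1 : Integrable fun t : ℝ => Real.exp (-(Real.pi * t ^ 2)) := by
    have := integrable_exp_neg_mul_sq (b := Real.pi) hp
    refine this.congr (ae_of_all _ fun t => ?_)
    simp only
    congr 1; ring
  have h2 : Integrable fun y : EE n => Real.exp (-(Real.pi * (‖y‖ ^ 2 / δ ^ 2))) := by
    have hb : 0 < (((Real.pi / δ ^ 2 : ℝ)) : ℂ).re := by
      rw [Complex.ofReal_re]; positivity
    have h3 := GaussianFourier.integrable_cexp_neg_mul_sq_norm_add (V := EE n) hb 0 0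
    have h4 := h3.norm
    refine h4.congr (ae_of_all _ fun y => ?_)
    simp only [Complex.norm_exp]
    congr 1
    simp only [inner_zero_left, Complex.ofReal_zero, mul_zero, add_zero]
    rw [show -(((Real.pi / δ ^ 2 : ℝ)) : ℂ) * (‖y‖ : ℂ) ^ 2 =
      ((-(Real.pi / δ ^ 2) * ‖y‖ ^ 2 : ℝ) : ℂ) by push_cast; ring, Complex.ofReal_re]
    ring
  rw [Measure.volume_eq_prod]
  exact h1.mul_prod h2

theorem pf_cte (hCTT : T_CTT) (hCGA : T_CGA) (hCSC : T_CSC) : T_CTE := by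
  intro n hn
  obtain ⟨C, hC0, hC⟩ := hCSC n hn
  refine ⟨C.toNNReal, ?_⟩
  intro lam Lam δ ζ A F hl hL hδ hF hA
  have hA0 : 0 ≤ A := (norm_nonneg _).trans (hA 0)
  obtain ⟨ω, hω⟩ : ∃ ω : ℝ × EE n → ℝ, ω = fun q =>
    Real.exp (-(Real.pi * q.1 ^ 2)) * Real.exp (-(Real.pi * (‖q.2‖ ^ 2 / δ ^ 2))) := ⟨_, rfl⟩
  obtain ⟨φ, hφ⟩ : ∃ φ : (ℝ × EE n) × EE n → ℝ, φ = fun p =>
    inner ℝ p.1.2 p.2 + p.1.1 * Real.sqrt (‖p.2‖ ^ 2 + ζ ^ 2) := ⟨_, rfl⟩
  obtain ⟨b, hb⟩ : ∃ b : EE n → ℂ, b = fun η =>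
    ((chi (Real.sqrt (‖η‖ ^ 2 + ζ ^ 2) / lam) * chi (‖η‖ / Lam) : ℝ) : ℂ) * F (jo η ζ) := ⟨_, rfl⟩
  obtain ⟨W, hW⟩ : ∃ W : EE n → EE n → ℝ, W = fun η η' =>
    Real.exp (-(Real.pi *
        (Real.sqrt (‖η‖ ^ 2 + ζ ^ 2) - Real.sqrt (‖η'‖ ^ 2 + ζ ^ 2)) ^ 2)) *
      (δ ^ n * Real.exp (-(Real.pi * (δ ^ 2 * ‖η - η'‖ ^ 2)))) := ⟨_, rfl⟩
  have hnorm : ∀ η : EE n, ‖jo η ζ‖ = Real.sqrt (‖η‖ ^ 2 + ζ ^ 2) := by
    intro η
    rw [← jo_norm_sq, Real.sqrt_sq (norm_nonneg _)]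
  have hjm : Measurable fun η : EE n => jo η ζ :=
    (continuous_jo.comp (by fun_prop : Continuous fun η : EE n => (η, ζ))).measurable
  have hbm : Measurable b := by
    rw [hb]
    apply Measurable.mul
    · apply Complex.measurable_ofReal.comp
      apply Measurable.mul
      · exact chi_smooth.continuous.measurable.comp (by fun_prop)
      · exact chi_smooth.continuous.measurable.comp (by fun_prop)
    · exact hF.comp hjm
  have hbF : ∀ η, ‖b η‖ ≤ ‖F (jo η ζ)‖ := by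
    intro η
    rw [hb]
    simp only
    rw [norm_mul, Complex.norm_real, norm_mul, Real.norm_eq_abs, Real.norm_eq_abs]
    refine mul_le_of_le_one_left (norm_nonneg _) ?_
    exact mul_le_one₀ (chi_abs_le _) (abs_nonneg _) (chi_abs_le _)
  have hbs : ∀ η, b η ≠ 0 → Lam / 2 ≤ ‖η‖ ∧ ‖η‖ ≤ 2 * Lam ∧ ‖η‖ ^ 2 + ζ ^ 2 ≤ 4 * lam ^ 2 := by
    intro η h
    rw [hb] at h
    simp only at h
    have h1 := left_ne_zero_of_mul h
    rw [Ne, Complex.ofReal_eq_zero, ← Ne] at h1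
    have h2 := chi_supp (left_ne_zero_of_mul h1)
    have h3 := chi_supp (right_ne_zero_of_mul h1)
    rw [div_le_iff₀ hl] at h2
    rw [le_div_iff₀ hL, div_le_iff₀ hL] at h3
    refine ⟨by linarith [h3.1], h3.2, ?_⟩
    have h4 := h2.2
    rw [Real.sqrt_le_left (by positivity)] at h4
    nlinarith
  have hbi : Integrable b := by
    have h1 : IntegrableOn (fun _ : EE n => A) (Metric.closedBall (0 : EE n) (2 * Lam)) :=
      integrableOn_const (measure_closedBall_lt_top.ne)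
    rw [← integrable_indicator_iff Metric.isClosed_closedBall.measurableSet] at h1
    refine h1.mono' hbm.aestronglyMeasurable (ae_of_all _ fun η => ?_)
    by_cases h : b η = 0
    · rw [h, norm_zero]
      exact indicator_nonneg (fun _ _ => hA0) _
    · rw [indicator_of_mem (by
        rw [mem_closedBall_zero_iff]; exact (hbs η h).2.1)]
      exact (hbF η).trans (hA _)
  have hφm : Measurable φ := by
    rw [hφ]
    fun_prop
  have hωm : Measurable ω := by rw [hω]; fun_prop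
  have hω0 : ∀ q, 0 ≤ ω q := by intro q; rw [hω]; positivity
  have hωi : Integrable ω := by rw [hω]; exact gw_int n hδ
  have hWm : Measurable (fun p : EE n × EE n => W p.1 p.2) := by rw [hW]; fun_prop
  have hWs : ∀ h h', W h h' = W h' h := by
    intro η η'
    rw [hW]
    simp only
    rw [norm_sub_rev η η', ← neg_sub (Real.sqrt (‖η'‖ ^ 2 + ζ ^ 2)), neg_sq]
  have hWb : ∀ h h', ‖∫ q, ((ω q : ℝ) : ℂ) * e (φ (q, h) - φ (q, h'))‖ ≤ W h h' := by
    intro η η'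
    have h1 := hCGA n δ (Real.sqrt (‖η‖ ^ 2 + ζ ^ 2) - Real.sqrt (‖η'‖ ^ 2 + ζ ^ 2)) (η - η') hδ
    have h2 : ∀ q : ℝ × EE n, φ (q, η) - φ (q, η') =
        q.1 * (Real.sqrt (‖η‖ ^ 2 + ζ ^ 2) - Real.sqrt (‖η'‖ ^ 2 + ζ ^ 2)) +
          inner ℝ q.2 (η - η') := by
      intro q
      rw [hφ]
      simp only
      rw [inner_sub_right]
      ring
    rw [hω]
    simp_rw [h2]
    rw [h1, Complex.norm_real, hW, Real.norm_of_nonneg (by positivity)]
  have hS : ∀ h, b h ≠ 0 → ∫⁻ h' in {h' | b h' ≠ 0}, ENNReal.ofReal (W h h') ≤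
      ENNReal.ofReal (C * (δ * lam / Lam)) := by
    intro η hη
    obtain ⟨h1, _, h3⟩ := hbs η hη
    refine le_trans ?_ (hC lam Lam δ ζ η hl hL hδ h1 h3)
    rw [hW]
    apply lintegral_mono_set
    intro η' hη'
    exact hbs η' hη'
  have key := hCTT (ℝ × EE n) (EE n) volume volume ω φ b W _ hωi hωm hω0 hφm hbm hbi hWm hWs hWb hS
  refine le_trans (le_of_eq ?_) (key.trans ?_)
  · refine lintegral_congr fun q => ?_
    rw [hω]
    simp only
    congr 3
    refine integral_congr_ae (ae_of_all _ fun η => ?_)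
    simp only
    rw [hφ, hb]
    simp only
    unfold mj
    rw [e_add, hnorm, hor_jo]
    ring
  · rw [ENNReal.ofReal_mul hC0]
    gcongr
    · exact le_refl _
    · rw [← ofReal_norm, ← ofReal_norm]
      exact ENNReal.ofReal_le_ofReal (hbF _)

end Pool.Agent.H79.BR
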