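import Pool.Agent.H79.BR.Targets
import Pool.Agent.H91.BR.SI
import Pool.Agent.H91.BR.ZP

/-! Module CSC: the integral in the Schur test. -/

set_option autoImplicit false

namespace Pool.Agent.H79.BR

open MeasureTheory Set
open Pool.Agent.H83.LS Pool.Agent.H93.AR Pool.Agent.H54.LS Pool.Agent.H91.BR
open scoped ENNReal NNReal

theorem gauss_poly (n : ℕ) (u : ℝ) (hu : 0 ≤ u) :
    Real.exp (-(Real.pi * u ^ 2)) ≤ Real.exp (((n : ℝ) + 1) ^ 2) * ((1 + u) ^ (n + 1))⁻¹ := by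
  have h1 : (1 + u) ^ (n + 1) ≤ Real.exp (((n : ℝ) + 1) * u) := by
    have h2 : 1 + u ≤ Real.exp u := by linarith [Real.add_one_le_exp u]
    calc (1 + u) ^ (n + 1) ≤ Real.exp u ^ (n + 1) := pow_le_pow_left₀ (by linarith) h2 _
      _ = Real.exp (((n : ℝ) + 1) * u) := by
        rw [← Real.exp_nat_mul]; push_cast; ring_nf
  have hp : 0 < (1 + u) ^ (n + 1) := by positivity
  rw [← div_eq_mul_inv, le_div_iff₀ hp]
  calc Real.exp (-(Real.pi * u ^ 2)) * (1 + u) ^ (n + 1)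
      ≤ Real.exp (-(Real.pi * u ^ 2)) * Real.exp (((n : ℝ) + 1) * u) := by gcongr
    _ = Real.exp (-(Real.pi * u ^ 2) + ((n : ℝ) + 1) * u) := by rw [Real.exp_add]
    _ ≤ Real.exp (((n : ℝ) + 1) ^ 2) := by
        apply Real.exp_le_exp.2
        nlinarith [Real.pi_gt_three, sq_nonneg (u - ((n : ℝ) + 1)), sq_nonneg u,
          sq_nonneg ((n : ℝ) + 1)]

theorem norm_sub_polar {n : ℕ} (η η' : EE n) (hη : η ≠ 0) (hη' : η' ≠ 0) :
    ‖η - η'‖ ^ 2 = (‖η‖ - ‖η'‖) ^ 2 +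
      ‖η‖ * ‖η'‖ * ‖‖η‖⁻¹ • η - ‖η'‖⁻¹ • η'‖ ^ 2 := by
  have h1 : 0 < ‖η‖ := norm_pos_iff.2 hη
  have h2 : 0 < ‖η'‖ := norm_pos_iff.2 hη'
  rw [@norm_sub_sq_real, @norm_sub_sq_real, norm_smul, norm_smul, norm_inv, norm_inv, norm_norm,
    norm_norm, real_inner_smul_left, real_inner_smul_right]
  field_simp
  ring

theorem ang_int (n : ℕ) (hn : 1 ≤ n) (hSBL : T_SBL) : ∃ C : ℝ, 0 ≤ C ∧ ∀ (κ : ℝ) (u : EE n),
    0 < κ → ‖u‖ = 1 →
    ∫⁻ w : Sp n, ENNReal.ofReal (Real.exp (-(Real.pi * (κ ^ 2 * ‖u - w‖ ^ 2)))) ∂(sg n) ≤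
      ENNReal.ofReal (C * (κ ^ (n - 1))⁻¹) := by
  obtain ⟨C, hC0, hC⟩ := hSBL n hn
  obtain ⟨m, hm⟩ : ∃ m : ℝ, m = (sg n univ).toReal := ⟨_, rfl⟩
  have hm0 : 0 ≤ m := by rw [hm]; exact ENNReal.toReal_nonneg
  refine ⟨Real.exp (((n : ℝ) + 1) ^ 2) * C + m, by positivity, fun κ u hκ hu => ?_⟩
  rcases le_total 1 κ with h1 | h1
  · have h2 := (hC κ u h1 hu).1
    calc ∫⁻ w : Sp n, ENNReal.ofReal (Real.exp (-(Real.pi * (κ ^ 2 * ‖u - w‖ ^ 2)))) ∂(sg n)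
        ≤ ∫⁻ w : Sp n, ENNReal.ofReal (Real.exp (((n : ℝ) + 1) ^ 2)) *
            ENNReal.ofReal (((1 + κ * ‖u - w‖) ^ (n + 1))⁻¹) ∂(sg n) := by
          refine lintegral_mono fun w => ?_
          rw [← ENNReal.ofReal_mul (by positivity)]
          apply ENNReal.ofReal_le_ofReal
          have h3 := gauss_poly n (κ * ‖u - w‖) (by positivity)
          rw [mul_pow] at h3
          exact h3
      _ = ENNReal.ofReal (Real.exp (((n : ℝ) + 1) ^ 2)) *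
            ∫⁻ w : Sp n, ENNReal.ofReal (((1 + κ * ‖u - w‖) ^ (n + 1))⁻¹) ∂(sg n) :=
          lintegral_const_mul' _ _ ENNReal.ofReal_ne_top
      _ ≤ ENNReal.ofReal (Real.exp (((n : ℝ) + 1) ^ 2)) *
            ENNReal.ofReal (C * (κ ^ (n - 1))⁻¹) := by gcongr
      _ ≤ _ := by
          rw [← ENNReal.ofReal_mul (by positivity)]
          apply ENNReal.ofReal_le_ofReal
          have : 0 ≤ m * (κ ^ (n - 1))⁻¹ := by positivity
          nlinarith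
  · have h2 : (1 : ℝ) ≤ (κ ^ (n - 1))⁻¹ := by
      rw [one_le_inv₀ (by positivity)]
      exact pow_le_one₀ hκ.le h1
    calc ∫⁻ w : Sp n, ENNReal.ofReal (Real.exp (-(Real.pi * (κ ^ 2 * ‖u - w‖ ^ 2)))) ∂(sg n)
        ≤ ∫⁻ w : Sp n, 1 ∂(sg n) := by
          refine lintegral_mono fun w => ?_
          rw [ENNReal.ofReal_le_one]
          apply Real.exp_le_one_iff.2
          have := Real.pi_pos
          have : 0 ≤ Real.pi * (κ ^ 2 * ‖u - w‖ ^ 2) := by positivity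
          linarith
      _ = sg n univ := by rw [lintegral_one]
      _ = ENNReal.ofReal m := by rw [hm, ENNReal.ofReal_toReal (measure_ne_top _ _)]
      _ ≤ _ := by
          apply ENNReal.ofReal_le_ofReal
          have h3 : 0 ≤ Real.exp (((n : ℝ) + 1) ^ 2) * C * (κ ^ (n - 1))⁻¹ := by positivity
          nlinarith

theorem rad_int (c a : ℝ) (hc : 0 < c) :
    ∫⁻ r : ℝ, ENNReal.ofReal (Real.exp (-(Real.pi * (c ^ 2 * (a - r) ^ 2)))) =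
      ENNReal.ofReal (1 / c) := by
  have h1 : ∀ r : ℝ, Real.exp (-(Real.pi * (c ^ 2 * (a - r) ^ 2))) =
      (fun x : ℝ => Real.exp (-(Real.pi * c ^ 2) * x ^ 2)) (a - r) := by
    intro r
    simp only
    congr 1; ring
  have hb : 0 < Real.pi * c ^ 2 := by have := Real.pi_pos; positivity
  have hi := integrable_exp_neg_mul_sq hb
  simp_rw [h1]
  rw [lintegral_sub_left_eq_self (fun x : ℝ => ENNReal.ofReal (Real.exp (-(Real.pi * c ^ 2) * x ^ 2))) a,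
    ← ofReal_integral_eq_lintegral_ofReal hi (ae_of_all _ fun x => (Real.exp_pos _).le),
    integral_gaussian]
  congr 1
  rw [show Real.pi / (Real.pi * c ^ 2) = (1 / c) ^ 2 by
    have := Real.pi_pos; field_simp, Real.sqrt_sq (by positivity)]

theorem pf_csc (hSBL : T_SBL) : T_CSC := by
  intro n hn
  have hn1 : 1 ≤ n := by omega
  obtain ⟨C, hC0, hC⟩ := ang_int n hn1 hSBL
  refine ⟨4 * 4 ^ (n - 1) * C, by positivity, ?_⟩
  intro lam Lam δ ζ η hl hL hδ hη hη2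
  have hη0 : 0 < ‖η‖ := by linarith
  have hηne : η ≠ 0 := norm_pos_iff.1 hη0
  obtain ⟨u, hu⟩ : ∃ u : EE n, u = ‖η‖⁻¹ • η := ⟨_, rfl⟩
  have hun : ‖u‖ = 1 := by
    rw [hu, norm_smul, norm_inv, norm_norm, inv_mul_cancel₀ hη0.ne']
  obtain ⟨c, hc⟩ : ∃ c : ℝ, c = Lam / (4 * lam) := ⟨_, rfl⟩
  have hc0 : 0 < c := by rw [hc]; positivity
  obtain ⟨κ, hκ⟩ : ∃ κ : ℝ, κ = δ * Lam / 2 := ⟨_, rfl⟩
  have hκ0 : 0 < κ := by rw [hκ]; positivity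
  obtain ⟨G, hG⟩ : ∃ G : ℝ → ℝ≥0∞, G = (Iic (2 * Lam)).indicator fun r =>
    ENNReal.ofReal (Real.exp (-(Real.pi * (c ^ 2 * (‖η‖ - r) ^ 2)))) := ⟨_, rfl⟩
  obtain ⟨H, hH⟩ : ∃ H : EE n → ℝ≥0∞, H = fun w =>
    ENNReal.ofReal (Real.exp (-(Real.pi * (κ ^ 2 * ‖u - w‖ ^ 2)))) := ⟨_, rfl⟩
  have hGm : Measurable G := by
    rw [hG]
    exact Measurable.indicator (by fun_prop) measurableSet_Iic
  have hHm : Measurable H := by rw [hH]; fun_prop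
  have hpt : ∀ η' ∈ {η' : EE n | Lam / 2 ≤ ‖η'‖ ∧ ‖η'‖ ≤ 2 * Lam ∧
      ‖η'‖ ^ 2 + ζ ^ 2 ≤ 4 * lam ^ 2},
      ENNReal.ofReal (Real.exp (-(Real.pi *
        (Real.sqrt (‖η‖ ^ 2 + ζ ^ 2) - Real.sqrt (‖η'‖ ^ 2 + ζ ^ 2)) ^ 2)) *
      (δ ^ n * Real.exp (-(Real.pi * (δ ^ 2 * ‖η - η'‖ ^ 2))))) ≤
      ENNReal.ofReal (δ ^ n) * (G ‖η'‖ * H (‖η'‖⁻¹ • η')) := by
    intro η' ⟨h1, h2, h3⟩
    have h4 : 0 < ‖η'‖ := by linarith
    have h5 : η' ≠ 0 := norm_pos_iff.1 h4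
    have hpi := Real.pi_pos
    rw [hG, hH]
    simp only
    rw [indicator_of_mem (show ‖η'‖ ∈ Iic (2 * Lam) from h2), ← ENNReal.ofReal_mul (by positivity),
      ← ENNReal.ofReal_mul (by positivity)]
    apply ENNReal.ofReal_le_ofReal
    have k1 : c ^ 2 * (‖η‖ - ‖η'‖) ^ 2 ≤
        (Real.sqrt (‖η‖ ^ 2 + ζ ^ 2) - Real.sqrt (‖η'‖ ^ 2 + ζ ^ 2)) ^ 2 := by
      obtain ⟨p, hp⟩ : ∃ p, p = Real.sqrt (‖η‖ ^ 2 + ζ ^ 2) := ⟨_, rfl⟩
      obtain ⟨q, hq⟩ : ∃ q, q = Real.sqrt (‖η'‖ ^ 2 + ζ ^ 2) := ⟨_, rfl⟩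
      have hp0 : 0 ≤ p := by rw [hp]; positivity
      have hq0 : 0 ≤ q := by rw [hq]; positivity
      have hp2 : p ^ 2 = ‖η‖ ^ 2 + ζ ^ 2 := by rw [hp]; exact Real.sq_sqrt (by positivity)
      have hq2 : q ^ 2 = ‖η'‖ ^ 2 + ζ ^ 2 := by rw [hq]; exact Real.sq_sqrt (by positivity)
      rw [← hp, ← hq]
      have e1 : (p - q) * (p + q) = (‖η‖ - ‖η'‖) * (‖η‖ + ‖η'‖) := by
        have : (p - q) * (p + q) = p ^ 2 - q ^ 2 := by ring
        rw [this, hp2, hq2]; ring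
      have e2 : p + q ≤ 4 * lam := by
        have : p ≤ 2 * lam := by
          apply abs_le_of_sq_le_sq' _ (by positivity) |>.2
          rw [hp2]; nlinarith
        have : q ≤ 2 * lam := by
          apply abs_le_of_sq_le_sq' _ (by positivity) |>.2
          rw [hq2]; nlinarith
        linarith
      have e3 : Lam ≤ ‖η‖ + ‖η'‖ := by linarith
      have e4 : (c * (‖η‖ - ‖η'‖)) ^ 2 * (4 * lam) ^ 2 ≤ (p - q) ^ 2 * (4 * lam) ^ 2 := by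
        calc (c * (‖η‖ - ‖η'‖)) ^ 2 * (4 * lam) ^ 2 = (‖η‖ - ‖η'‖) ^ 2 * Lam ^ 2 := by
              rw [hc]; field_simp
          _ ≤ (‖η‖ - ‖η'‖) ^ 2 * (‖η‖ + ‖η'‖) ^ 2 := by gcongr
          _ = ((‖η‖ - ‖η'‖) * (‖η‖ + ‖η'‖)) ^ 2 := by ring
          _ = (p - q) ^ 2 * (p + q) ^ 2 := by rw [← e1]; ring
          _ ≤ (p - q) ^ 2 * (4 * lam) ^ 2 := by gcongr
      have e5 := le_of_mul_le_mul_right e4 (by positivity)
      rw [mul_pow] at e5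
      exact e5
    have k2 : κ ^ 2 * ‖u - ‖η'‖⁻¹ • η'‖ ^ 2 ≤ δ ^ 2 * ‖η - η'‖ ^ 2 := by
      rw [norm_sub_polar η η' hηne h5, ← hu, hκ]
      have e1 : Lam ^ 2 / 4 ≤ ‖η‖ * ‖η'‖ := by nlinarith
      have e2 : 0 ≤ ‖u - ‖η'‖⁻¹ • η'‖ ^ 2 := by positivity
      have e3 : Lam ^ 2 / 4 * ‖u - ‖η'‖⁻¹ • η'‖ ^ 2 ≤
          (‖η‖ - ‖η'‖) ^ 2 + ‖η‖ * ‖η'‖ * ‖u - ‖η'‖⁻¹ • η'‖ ^ 2 := by
        nlinarith [sq_nonneg (‖η‖ - ‖η'‖), mul_le_mul_of_nonneg_right e1 e2]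
      have e4 := mul_le_mul_of_nonneg_left e3 (sq_nonneg δ)
      nlinarith
    calc Real.exp (-(Real.pi * (Real.sqrt (‖η‖ ^ 2 + ζ ^ 2) -
          Real.sqrt (‖η'‖ ^ 2 + ζ ^ 2)) ^ 2)) *
          (δ ^ n * Real.exp (-(Real.pi * (δ ^ 2 * ‖η - η'‖ ^ 2))))
        ≤ Real.exp (-(Real.pi * (c ^ 2 * (‖η‖ - ‖η'‖) ^ 2))) *
          (δ ^ n * Real.exp (-(Real.pi * (κ ^ 2 * ‖u - ‖η'‖⁻¹ • η'‖ ^ 2)))) := by
          gcongr
      _ = _ := by ring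
  refine (setLIntegral_mono' ?_ hpt).trans ?_
  · exact (measurableSet_le measurable_const measurable_norm).inter
      ((measurableSet_le measurable_norm measurable_const).inter
        (measurableSet_le ((measurable_norm.pow_const 2).add_const _) measurable_const))
  refine (setLIntegral_le_lintegral _ _).trans ?_
  rw [lintegral_const_mul' _ _ ENNReal.ofReal_ne_top, Pool.Agent.H91.BR.polar_prod n hn1 G hGm H hHm,
    nu_lint n G hGm]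
  have hA : ∫⁻ w : Sp n, H w ∂(sg n) ≤ ENNReal.ofReal (C * (κ ^ (n - 1))⁻¹) := by
    rw [hH]
    exact hC κ u hκ0 hun
  have hB : ∫⁻ r in Ioi (0 : ℝ), ENNReal.ofReal (r ^ (n - 1)) * G r ≤
      ENNReal.ofReal ((2 * Lam) ^ (n - 1) * (1 / c)) := by
    calc ∫⁻ r in Ioi (0 : ℝ), ENNReal.ofReal (r ^ (n - 1)) * G r
        ≤ ∫⁻ r in Ioi (0 : ℝ), ENNReal.ofReal ((2 * Lam) ^ (n - 1)) *
          ENNReal.ofReal (Real.exp (-(Real.pi * (c ^ 2 * (‖η‖ - r) ^ 2)))) := by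
          refine setLIntegral_mono' measurableSet_Ioi fun r hr => ?_
          have hr' : 0 < r := hr
          rw [hG]
          by_cases h : r ∈ Iic (2 * Lam)
          · rw [indicator_of_mem h]
            gcongr
            exact h
          · rw [indicator_of_notMem h, mul_zero]
            exact zero_le
      _ ≤ ∫⁻ r : ℝ, ENNReal.ofReal ((2 * Lam) ^ (n - 1)) *
          ENNReal.ofReal (Real.exp (-(Real.pi * (c ^ 2 * (‖η‖ - r) ^ 2)))) :=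
          setLIntegral_le_lintegral _ _
      _ = _ := by
          rw [lintegral_const_mul' _ _ ENNReal.ofReal_ne_top, rad_int c ‖η‖ hc0,
            ← ENNReal.ofReal_mul (by positivity)]
  refine (mul_le_mul_right (mul_le_mul' hA hB) _).trans ?_
  rw [← ENNReal.ofReal_mul (by positivity), ← ENNReal.ofReal_mul (by positivity)]
  apply ENNReal.ofReal_le_ofReal
  apply le_of_eq
  obtain ⟨k, rfl⟩ : ∃ k, n = k + 1 := ⟨n - 1, by omega⟩
  simp only [Nat.add_sub_cancel]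
  rw [hc, hκ, pow_succ δ k, mul_pow 2 Lam k, div_pow, mul_pow]
  have h4 : (4 : ℝ) ^ k = 2 ^ k * 2 ^ k := by rw [← mul_pow]; norm_num
  rw [h4]
  have hd : δ ^ k ≠ 0 := by positivity
  have hLk : Lam ^ k ≠ 0 := by positivity
  field_simp

end Pool.Agent.H79.BR
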