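import Pool.Agent.H83.AR.Targets

/-!
Local smoothing with one angular derivative: targets of helper79 (part C: pointwise bounds for the
kernel of `mj`, sup bounds SU, SV and the energy bound TE near the axis).
-/

set_option autoImplicit false

namespace Pool.Agent.H79.BR

open MeasureTheory Set FourierTransform
open Pool.Agent.H83.LS Pool.Agent.H93.AR Pool.Agent.H54.LS Pool.Agent.H14.LS Pool.Agent.H83.AR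
open scoped ENNReal NNReal

/-- the amplitude of the kernel of `mj` on the sphere, `α = Lam / lam` -/
noncomputable def gj (n : ℕ) (α : ℝ) (q : ℝ × EE (n + 1)) : ℂ :=
  ((q.1 ^ n * (chi q.1 * chi (q.1 * hor q.2 / α)) : ℝ) : ℂ)

/-- CKA: `gj` is an amplitude at scale `α` -/
def T_CKA : Prop := ∀ n M : ℕ, 2 ≤ n → ∃ B : ℝ, ∀ α : ℝ, 0 < α → α ≤ 4 →
  SA (n + 1) M α B (gj n α)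

/-- CKP: the kernel in polar coordinates -/
def T_CKP : Prop := ∀ (n : ℕ) (lam Lam t : ℝ) (x : EE (n + 1)), 1 ≤ n → 0 < lam → 0 < Lam →
  (MK (mj n lam Lam t) x = ((lam ^ (n + 1) : ℝ) : ℂ) * ∫ w : Sp (n + 1), ∫ s : ℝ,
    e (s * (lam * (t + inner ℝ x (w : EE (n + 1))))) *
      gj n (Lam / lam) (s, (w : EE (n + 1))) ∂volume ∂(sg (n + 1))) ∧
  (x ≠ 0 → MK (mj n lam Lam t) x = ((lam ^ (n + 1) : ℝ) : ℂ) *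
    osc (n + 1) (gj n (Lam / lam)) (lam * t) (lam * ‖x‖) (-(‖x‖⁻¹ • x)))

/-- CKL: the kernel near the origin -/
def T_CKL : Prop := ∀ n N : ℕ, 2 ≤ n → ∃ C : ℝ, 0 ≤ C ∧ ∀ (lam Lam t : ℝ) (x : EE (n + 1)),
  1 ≤ lam → 0 < Lam → Lam ≤ 4 * lam → 1 ≤ t → ‖x‖ ≤ 1 / 4 →
  ‖MK (mj n lam Lam t) x‖ ≤ C * (lam ^ N)⁻¹

/-- CKB: the kernel away from the origin -/
def T_CKB : Prop := ∀ n N : ℕ, 2 ≤ n → ∃ C : ℝ, 0 ≤ C ∧ ∀ (lam Lam t : ℝ) (x : EE (n + 1)),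
  1 ≤ lam → 0 < Lam → Lam ≤ 4 * lam → 16 * lam ≤ Lam ^ 2 → t ∈ Icc (1 : ℝ) 2 → 1 / 4 ≤ ‖x‖ →
  ‖MK (mj n lam Lam t) x‖ ≤ C * lam ^ ((n : ℝ) / 2 + 1) * ((1 + lam * |‖x‖ - t|) ^ N)⁻¹ *
    ((1 + Real.sqrt lam * max 0 (hor x / ‖x‖ - 4 * (Lam / lam))) ^ N)⁻¹

/-- CX1: `L¹` norm of the kernel, low frequencies -/
def T_CX1 : Prop := ∀ n : ℕ, 2 ≤ n → ∃ C : ℝ≥0, ∀ lam Lam t : ℝ, 1 ≤ lam → 1 ≤ Lam →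
  Lam ≤ 4 * lam → t ∈ Icc (1 : ℝ) 2 → lam ≤ 1024 → ∫⁻ x, ‖MK (mj n lam Lam t) x‖ₑ ≤ C

/-- CX2: `L¹` norm of the kernel, `Lam² ≤ 16 lam` -/
def T_CX2 : Prop := ∀ n : ℕ, 2 ≤ n → ∃ C : ℝ≥0, ∀ lam Lam t : ℝ, 1024 ≤ lam → 1 ≤ Lam →
  t ∈ Icc (1 : ℝ) 2 → Lam ^ 2 ≤ 16 * lam → ∫⁻ x, ‖MK (mj n lam Lam t) x‖ₑ ≤ C

/-- CCA: functions concentrated near the poles of the sphere -/
def T_CCA : Prop := ∀ n : ℕ, 2 ≤ n → ∃ C : ℝ, 0 ≤ C ∧ ∀ α : ℝ, 0 < α → α ≤ 4 →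
  ∫⁻ w : Sp (n + 1), ENNReal.ofReal (((1 + hor (w : EE (n + 1)) / α) ^ (n + 2))⁻¹) ∂(sg (n + 1)) ≤
    ENNReal.ofReal (C * α ^ n)

/-- CL1: `L¹` norm of the kernel -/
def T_CL1 : Prop := ∀ n : ℕ, 2 ≤ n → ∃ C : ℝ, 0 ≤ C ∧ ∀ lam Lam t : ℝ, 1 ≤ lam → 1 ≤ Lam →
  Lam ≤ 4 * lam → t ∈ Icc (1 : ℝ) 2 → ∫⁻ x, ‖MK (mj n lam Lam t) x‖ₑ ≤
    ENNReal.ofReal (C * (1 + Lam ^ 2 / lam) ^ ((n : ℝ) / 2))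

/-- CSL: slope lemma -/
def T_CSL : Prop := ∃ C : ℝ, 0 ≤ C ∧ ∀ lam b t : ℝ, 0 < lam →
  ∫⁻ z in {z : ℝ | 0 < z ∧ Real.sqrt (b ^ 2 + z ^ 2) ≤ 4 * z},
    ENNReal.ofReal (((1 + lam * |Real.sqrt (b ^ 2 + z ^ 2) - t|) ^ 2)⁻¹) ≤
  ENNReal.ofReal (C / lam)

/-- CV1: shells in a cylinder, part near the axis -/
def T_CV1 : Prop := ∀ n : ℕ, 2 ≤ n → ∃ C : ℝ, 0 ≤ C ∧ ∀ (lam t δ : ℝ) (x : EE (n + 1)),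
  0 < lam → 0 < δ →
  ∫⁻ w in {w : EE (n + 1) | hor (x - w) ≤ δ ∧ hor w ≤ ‖w‖ / 2},
    ENNReal.ofReal (((1 + lam * |‖w‖ - t|) ^ 2)⁻¹) ≤ ENNReal.ofReal (C * (δ ^ n / lam))

/-- CV2: shells in a cylinder, part away from the axis -/
def T_CV2 : Prop := ∀ n : ℕ, 2 ≤ n → ∃ C : ℝ, 0 ≤ C ∧ ∀ (lam t δ : ℝ) (x : EE (n + 1)),
  1 ≤ lam → t ∈ Icc (1 : ℝ) 2 → 0 < δ → δ ≤ 1 / 64 →
  ∫⁻ w in {w : EE (n + 1) | hor (x - w) ≤ δ ∧ ‖w‖ / 2 ≤ hor w ∧ 1 / 4 ≤ ‖w‖},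
    ENNReal.ofReal (((1 + lam * |‖w‖ - t|) ^ 4)⁻¹) ≤ ENNReal.ofReal (C * (δ ^ (n - 1) / lam))

/-- CSW: `L¹` norm of the kernel in a cylinder -/
def T_CSW : Prop := ∀ n : ℕ, 2 ≤ n → ∃ C : ℝ, 0 ≤ C ∧ ∀ (lam Lam t δ : ℝ) (x : EE (n + 1)),
  1 ≤ lam → 1 ≤ Lam → Lam ≤ 4 * lam → t ∈ Icc (1 : ℝ) 2 → lam ≤ Lam ^ 2 → 1 / Lam ≤ δ →
  δ ≤ Lam / lam →
  ∫⁻ w in {w : EE (n + 1) | hor (x - w) ≤ δ}, ‖MK (mj n lam Lam t) w‖ₑ ≤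
    ENNReal.ofReal (C * (δ * Lam) ^ ((n : ℝ) / 2))

/-- CTT: weighted energy of an oscillatory integral, Schur test -/
def T_CTT : Prop := ∀ (Q H : Type) [MeasurableSpace Q] [MeasurableSpace H] (μ : Measure Q)
  (ν : Measure H) [SFinite μ] [SFinite ν] (ω : Q → ℝ) (φ : Q × H → ℝ) (b : H → ℂ)
  (W : H → H → ℝ) (S : ℝ≥0∞), Integrable ω μ → Measurable ω → (∀ q, 0 ≤ ω q) → Measurable φ →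
  Measurable b → Integrable b ν → Measurable (fun p : H × H => W p.1 p.2) →
  (∀ h h', W h h' = W h' h) →
  (∀ h h', ‖∫ q, ((ω q : ℝ) : ℂ) * e (φ (q, h) - φ (q, h')) ∂μ‖ ≤ W h h') →
  (∀ h, b h ≠ 0 → ∫⁻ h' in {h' | b h' ≠ 0}, ENNReal.ofReal (W h h') ∂ν ≤ S) →
  ∫⁻ q, ENNReal.ofReal (ω q) * ‖∫ h, e (φ (q, h)) * b h ∂ν‖ₑ ^ 2 ∂μ ≤ S * ∫⁻ h, ‖b h‖ₑ ^ 2 ∂ν

/-- CGA: a Gaussian integral -/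
def T_CGA : Prop := ∀ (n : ℕ) (δ a : ℝ) (η : EE n), 0 < δ →
  ∫ q : ℝ × EE n, ((Real.exp (-(Real.pi * q.1 ^ 2)) *
      Real.exp (-(Real.pi * (‖q.2‖ ^ 2 / δ ^ 2))) : ℝ) : ℂ) * e (q.1 * a + inner ℝ q.2 η) =
    ((Real.exp (-(Real.pi * a ^ 2)) * (δ ^ n * Real.exp (-(Real.pi * (δ ^ 2 * ‖η‖ ^ 2)))) : ℝ) : ℂ)

/-- CSC: the integral in the Schur test -/
def T_CSC : Prop := ∀ n : ℕ, 2 ≤ n → ∃ C : ℝ, 0 ≤ C ∧ ∀ (lam Lam δ ζ : ℝ) (η : EE n),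
  0 < lam → 0 < Lam → 0 < δ → Lam / 2 ≤ ‖η‖ → ‖η‖ ^ 2 + ζ ^ 2 ≤ 4 * lam ^ 2 →
  ∫⁻ η' in {η' : EE n | Lam / 2 ≤ ‖η'‖ ∧ ‖η'‖ ≤ 2 * Lam ∧ ‖η'‖ ^ 2 + ζ ^ 2 ≤ 4 * lam ^ 2},
    ENNReal.ofReal (Real.exp (-(Real.pi *
        (Real.sqrt (‖η‖ ^ 2 + ζ ^ 2) - Real.sqrt (‖η'‖ ^ 2 + ζ ^ 2)) ^ 2)) *
      (δ ^ n * Real.exp (-(Real.pi * (δ ^ 2 * ‖η - η'‖ ^ 2))))) ≤
  ENNReal.ofReal (C * (δ * lam / Lam))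

/-- CPZ: Plancherel in the last variable -/
def T_CPZ : Prop := ∀ (n : ℕ) (A R : ℝ) (G : EE (n + 1) → ℂ) (y : EE n), Measurable G →
  (∀ ξ, ‖G ξ‖ ≤ A) → (∀ ξ, R < ‖ξ‖ → G ξ = 0) →
  ∫⁻ z : ℝ, ‖∫ ξ : EE (n + 1), e (inner ℝ (jo y z) ξ) * G ξ‖ₑ ^ 2 =
    ∫⁻ ζ : ℝ, ‖∫ η : EE n, e (inner ℝ y η) * G (jo η ζ)‖ₑ ^ 2

/-- CTE: weighted energy at fixed last frequency -/
def T_CTE : Prop := ∀ n : ℕ, 2 ≤ n → ∃ C : ℝ≥0, ∀ (lam Lam δ ζ A : ℝ) (F : EE (n + 1) → ℂ),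
  0 < lam → 0 < Lam → 0 < δ → Measurable F → (∀ ξ, ‖F ξ‖ ≤ A) →
  ∫⁻ q : ℝ × EE n, ENNReal.ofReal (Real.exp (-(Real.pi * q.1 ^ 2)) *
      Real.exp (-(Real.pi * (‖q.2‖ ^ 2 / δ ^ 2)))) *
      ‖∫ η : EE n, e (inner ℝ q.2 η) * (mj n lam Lam q.1 (jo η ζ) * F (jo η ζ))‖ₑ ^ 2 ≤
    C * ENNReal.ofReal (δ * lam / Lam) * ∫⁻ η : EE n, ‖F (jo η ζ)‖ₑ ^ 2

end Pool.Agent.H79.BR
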